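import Mathlib
import Pool.Agent.Lib.MP_6db618_an.EntMax

set_option autoImplicit false

namespace Pool.Agent.Results.MP_6db618_an.EntireAdjacent

/-- Blumenthal's conjecture for entire functions `f₁`, `f₂` with arbitrary complex coefficients
when the two lowest exponents in the Taylor series of `f₁` at `0` are consecutive, that is
`f₁ z = z ^ j * g z` with `g` entire and `g 0`, `g' 0` non-zero (no assumption on `f₂`); equality
of the maximum moduli for small radii already suffices. -/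
theorem result (f₁ f₂ g : ℂ → ℂ) (j : ℕ) (hf₂ : Differentiable ℂ f₂) (hg : Differentiable ℂ g)
    (hfac : ∀ z : ℂ, f₁ z = z ^ j * g z) (h0 : g 0 ≠ 0) (h1 : deriv g 0 ≠ 0)
    (r₀ : ℝ) (hr₀ : 0 < r₀)
    (hM : ∀ r : ℝ, 0 < r → r < r₀ →
      sSup ((fun z => ‖f₁ z‖) '' Metric.sphere (0 : ℂ) r) =
        sSup ((fun z => ‖f₂ z‖) '' Metric.sphere (0 : ℂ) r)) :
    ∃ ε η : ℂ, ‖ε‖ = 1 ∧ ‖η‖ = 1 ∧
      ((∀ z : ℂ, f₂ z = ε * f₁ (η * z)) ∨
        (∀ z : ℂ, f₂ z = ε * starRingEnd ℂ (f₁ (η * starRingEnd ℂ z)))) := by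
  obtain rfl : f₁ = fun z => z ^ j * g z := funext hfac
  exact Pool.Agent.Lib.MP_6db618_an.equiv_of_factor hg hf₂ h0 h1 j hr₀ hM

end Pool.Agent.Results.MP_6db618_an.EntireAdjacent
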