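import Mathlib
import Pool.Agent.Lib.MP_6db618_an.MT6

set_option autoImplicit false

namespace Pool.Agent.Results.MP_6db618_an.NonNested

open Pool.Agent.Lib.MP_6db618_an in
/-- Blumenthal's conjecture for complex polynomials `p`, `q` unless two non-zero roots `u, u'` of
`p` and two roots `v, v'` of `q` satisfy `u * conj u' = v * conj v'`, have equal sums of
multiplicities, and both multiplicities of `v, v'` exceed the multiplicity of `u`. Equality of the
maximum moduli for all small and all large radii suffices. -/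
theorem result (p q : Polynomial ℂ)
    (hN : ∀ u u' v v' : ℂ, u ≠ 0 → u' ≠ 0 → p.IsRoot u → p.IsRoot u' → q.IsRoot v → q.IsRoot v' →
      u * starRingEnd ℂ u' = v * starRingEnd ℂ v' →
      p.rootMultiplicity u + p.rootMultiplicity u' = q.rootMultiplicity v + q.rootMultiplicity v' →
      ¬ (p.rootMultiplicity u < q.rootMultiplicity v ∧
        p.rootMultiplicity u < q.rootMultiplicity v'))
    (r₀ r₁ : ℝ) (hr₀ : 0 < r₀)
    (hM : ∀ r : ℝ, 0 < r → r < r₀ ∨ r₁ < r →
      sSup ((fun z => ‖p.eval z‖) '' Metric.sphere (0 : ℂ) r) =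
        sSup ((fun z => ‖q.eval z‖) '' Metric.sphere (0 : ℂ) r)) :
    ∃ ε η : ℂ, ‖ε‖ = 1 ∧ ‖η‖ = 1 ∧
      ((∀ z : ℂ, q.eval z = ε * p.eval (η * z)) ∨
        (∀ z : ℂ, q.eval z = ε * starRingEnd ℂ (p.eval (η * starRingEnd ℂ z)))) := by
  refine equiv_of_nonNested hr₀ hM fun u hu u' hu' v hv v' hv' e1 e2 => ?_
  simp only [Polynomial.count_roots] at e2 ⊢
  have k : ∀ (f : Polynomial ℂ), ∀ w ∈ nz f.roots, f.IsRoot w := fun f w hw =>
    Polynomial.isRoot_of_mem_roots (Multiset.mem_filter.mp hw).1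
  have h1 := hN u u' v v' (nz_ne_zero _ _ hu) (nz_ne_zero _ _ hu') (k _ _ hu) (k _ _ hu')
    (k _ _ hv) (k _ _ hv') e1 e2
  have h2 := hN u' u v' v (nz_ne_zero _ _ hu') (nz_ne_zero _ _ hu) (k _ _ hu') (k _ _ hu)
    (k _ _ hv') (k _ _ hv) (by simpa [mul_comm] using congrArg (starRingEnd ℂ) e1) (by omega)
  omega

end Pool.Agent.Results.MP_6db618_an.NonNested
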