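import Mathlib
import Pool.Agent.Lib.MP_6db618_an.GapPoly

set_option autoImplicit false

namespace Pool.Agent.Results.MP_6db618_an.NonResonantGap

open Pool.Agent.Lib.MP_6db618_an

/-- Blumenthal's conjecture for complex polynomials `p`, `q` when there is no resonance at one of
the two ends (at `0`, or at `∞`, which is the condition at `0` for the reversed polynomials). -/
theorem result (p q : Polynomial ℂ)
    (hres : NonResonant p q ∨ NonResonant p.reverse q.reverse)
    (hM : ∀ r : ℝ, 0 < r →
      sSup ((fun z => ‖p.eval z‖) '' Metric.sphere (0 : ℂ) r) =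
        sSup ((fun z => ‖q.eval z‖) '' Metric.sphere (0 : ℂ) r)) :
    ∃ ε η : ℂ, ‖ε‖ = 1 ∧ ‖η‖ = 1 ∧
      ((∀ z : ℂ, q.eval z = ε * p.eval (η * z)) ∨
        (∀ z : ℂ, q.eval z = ε * starRingEnd ℂ (p.eval (η * starRingEnd ℂ z)))) :=
  hres.elim (fun h => equiv_of_nonResonant h hM) (fun h => equiv_of_nonResonant_reverse h hM)

end Pool.Agent.Results.MP_6db618_an.NonResonantGap
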