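import Mathlib
import Pool.Agent.Lib.MP_6db618_an.InfEnt

set_option autoImplicit false

namespace Pool.Agent.Results.MP_6db618_an.Transcendental

/-- Blumenthal's conjecture for every pair of entire functions `f`, `g` with `f` transcendental
(not a polynomial). -/
theorem result (f g : ℂ → ℂ) (hf : Differentiable ℂ f) (hg : Differentiable ℂ g)
    (hpoly : ¬ ∃ p : Polynomial ℂ, ∀ z : ℂ, f z = p.eval z)
    (hM : ∀ r : ℝ, 0 < r →
      sSup ((fun z => ‖f z‖) '' Metric.sphere (0 : ℂ) r) =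
        sSup ((fun z => ‖g z‖) '' Metric.sphere (0 : ℂ) r)) :
    ∃ ε η : ℂ, ‖ε‖ = 1 ∧ ‖η‖ = 1 ∧
      ((∀ z : ℂ, g z = ε * f (η * z)) ∨
        (∀ z : ℂ, g z = ε * starRingEnd ℂ (f (η * starRingEnd ℂ z)))) :=
  Pool.Agent.Lib.MP_6db618_an.equiv_of_transcendental hf hg hpoly hM

end Pool.Agent.Results.MP_6db618_an.Transcendental
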